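import Pool.Agent.Helper30.BG.Goals

/-!
# Project BG: packet STRESS
-/

open InnerProductSpace Metric Set Filter Topology MeasureTheory
open scoped ContDiff Laplacian

namespace Pool.Agent.Helper13.BG

open Pool.Agent.Helper30.BG

theorem pd_contDiff {u : E3 → ℝ} (hu : ContDiff ℝ 2 u) (j : Fin 3) : ContDiff ℝ 1 (pd j u) := by
  have h1 : ContDiff ℝ 1 (fderiv ℝ u) := hu.fderiv_right (by norm_num)
  exact h1.clm_apply contDiff_const

theorem pd_symm {u : E3 → ℝ} (hu : ContDiff ℝ 2 u) (i j : Fin 3) (x : E3) :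
    fderiv ℝ (pd j u) x (eb i) = fderiv ℝ (pd i u) x (eb j) := by
  have h1 : DifferentiableAt ℝ (fderiv ℝ u) x :=
    (hu.contDiffAt.fderiv_right (m := 1) (by norm_num)).differentiableAt (by norm_num)
  have key : ∀ j, fderiv ℝ (pd j u) x = (fderiv ℝ (fderiv ℝ u) x).flip (eb j) := by
    intro j
    have h3 := h1.hasFDerivAt.clm_apply (hasFDerivAt_const (eb j) x)
    have h4 : HasFDerivAt (pd j u) _ x := h3
    rw [h4.fderiv]
    ext w
    simp
  rw [key, key, ContinuousLinearMap.flip_apply, ContinuousLinearMap.flip_apply]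
  exact (hu.contDiffAt.isSymmSndFDerivAt (by simp)).eq _ _

theorem integrable_mul {T φ : E3 → ℝ} (hT : Continuous T) (hφ : Continuous φ)
    (hc : HasCompactSupport φ) : Integrable (fun x => T x * φ x) :=
  (hT.mul hφ).integrable_of_hasCompactSupport hc.mul_left

theorem ibp {T φ : E3 → ℝ} (hT : ContDiff ℝ 1 T) (hφ : ContDiff ℝ 1 φ)
    (hc : HasCompactSupport φ) (v : E3) :
    ∫ x, T x * fderiv ℝ φ x v = - ∫ x, fderiv ℝ T x v * φ x := by
  have h1 : Continuous (fun x => fderiv ℝ T x v) :=
    (hT.continuous_fderiv (by norm_num)).clm_apply continuous_const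
  have h2 : Continuous (fun x => fderiv ℝ φ x v) :=
    (hφ.continuous_fderiv (by norm_num)).clm_apply continuous_const
  exact integral_mul_fderiv_eq_neg_fderiv_mul_of_integrable
    (integrable_mul h1 hφ.continuous hc)
    (integrable_mul hT.continuous h2 (hc.fderiv_apply (𝕜 := ℝ) v))
    (integrable_mul hT.continuous hφ.continuous hc)
    (fun x _ => hT.differentiable (by norm_num) x) (fun x _ => hφ.differentiable (by norm_num) x)

/-- Integration by parts against a dilated function. -/
theorem ibp_dil {T T' φ : E3 → ℝ} {v : E3} {R : ℝ} (hT : ContDiff ℝ 1 T)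
    (hT' : ∀ x, fderiv ℝ T x v = T' x) (hφ : ContDiff ℝ 1 φ) (hc : HasCompactSupport φ) :
    ∫ x, T (R • x) * fderiv ℝ φ x v = - ∫ x, R * T' (R • x) * φ x := by
  have hA : ∀ y : E3, HasFDerivAt (fun y : E3 => R • y) (R • ContinuousLinearMap.id ℝ E3) y :=
    fun y => (hasFDerivAt_id y).const_smul R
  have hS : ContDiff ℝ 1 (fun x : E3 => T (R • x)) := hT.comp (contDiff_const_smul R)
  rw [ibp hS hφ hc v]
  congr 1
  refine integral_congr_ae (Eventually.of_forall fun x => ?_)
  beta_reduce
  have h1 : HasFDerivAt (fun x : E3 => T (R • x))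
      ((fderiv ℝ T (R • x)).comp (R • ContinuousLinearMap.id ℝ E3)) x :=
    (hT.differentiable (by norm_num) (R • x)).hasFDerivAt.comp x (hA x)
  rw [h1.fderiv, ContinuousLinearMap.comp_apply, smul_apply,
    ContinuousLinearMap.id_apply, map_smul, hT', smul_eq_mul]

theorem stress : S_STRESS := by
  intro f F u φ hf hF hu hlap hφ hc R hR
  have hP := pd_contDiff hu
  have hPd : ∀ j x, DifferentiableAt ℝ (pd j u) x := fun j x =>
    (hP j).differentiable (by norm_num) x
  have hud : ∀ x, DifferentiableAt ℝ u x := fun x => hu.differentiable (by norm_num) x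
  have hFc : ContDiff ℝ 1 F := by
    rw [contDiff_one_iff_deriv]
    refine ⟨fun t => (hF t).differentiableAt, ?_⟩
    have : deriv F = f := funext fun t => (hF t).deriv
    rw [this]; exact hf
  have hFu : ContDiff ℝ 1 (fun x => F (u x)) := hFc.comp (hu.of_le (by norm_num))
  -- the functions
  set A : Fin 3 → E3 → ℝ := fun j x => pd 0 u x * pd j u x with hA
  set E : E3 → ℝ := fun x => 1 / 2 * ∑ j, pd j u x ^ 2 + F (u x) with hE
  have hAc : ∀ j, ContDiff ℝ 1 (A j) := fun j => (hP 0).mul (hP j)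
  have hEc : ContDiff ℝ 1 E :=
    (contDiff_const.mul (ContDiff.sum fun j _ => (hP j).pow 2)).add hFu
  have hA' : ∀ j x, fderiv ℝ (A j) x (eb j) = pd 0 u x * fderiv ℝ (pd j u) x (eb j) +
      pd j u x * fderiv ℝ (pd 0 u) x (eb j) := by
    intro j x
    have h1 := (hPd 0 x).hasFDerivAt.mul (hPd j x).hasFDerivAt
    have h2 : HasFDerivAt (A j) _ x := h1
    rw [h2.fderiv]
    simp
  have hE' : ∀ x, fderiv ℝ E x (eb 0) = ∑ j, pd j u x * fderiv ℝ (pd j u) x (eb 0) +
      f (u x) * pd 0 u x := by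
    intro x
    have h1 : ∀ j ∈ (Finset.univ : Finset (Fin 3)), HasFDerivAt (fun x => pd j u x ^ 2)
        ((2 * pd j u x) • fderiv ℝ (pd j u) x) x := by
      intro j _
      have := (hPd j x).hasFDerivAt.pow 2
      refine this.congr_fderiv ?_
      ext w
      simp
    have h2 := (HasFDerivAt.fun_sum h1).const_mul (1 / 2)
    have h3 : HasFDerivAt (fun x => F (u x)) (f (u x) • fderiv ℝ u x) x :=
      (hF (u x)).comp_hasFDerivAt x (hud x).hasFDerivAt
    have h4 : HasFDerivAt E _ x := h2.add h3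
    rw [h4.fderiv]
    simp only [add_apply, smul_apply, smul_eq_mul, Fin.sum_univ_three]
    show _ = _ + f (u x) * fderiv ℝ u x (eb 0)
    ring
  -- divergence zero
  have hdiv : ∀ x, ∑ j, fderiv ℝ (A j) x (eb j) - fderiv ℝ E x (eb 0) = 0 := by
    intro x
    have hl := lap_eq (x := x) hu.contDiffAt
    rw [hlap x] at hl
    rw [hE', hl]
    simp only [hA', Fin.sum_univ_three, pd_symm hu 0 1 x, pd_symm hu 0 2 x]
    ring
  -- the integral
  have hcφ : ∀ j, Continuous (fun x => pd j φ x) := fun j =>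
    (hφ.continuous_fderiv (by norm_num)).clm_apply continuous_const
  have hcs : ∀ j, HasCompactSupport (fun x => pd j φ x) := fun j =>
    hc.fderiv_apply (𝕜 := ℝ) (eb j)
  have hdil : Continuous (fun x : E3 => R • x) := continuous_const_smul R
  have hi : ∀ j, Integrable (fun x => A j (R • x) * pd j φ x) := fun j =>
    integrable_mul ((hAc j).continuous.comp hdil) (hcφ j) (hcs j)
  have hi0 : Integrable (fun x => E (R • x) * pd 0 φ x) :=
    integrable_mul (hEc.continuous.comp hdil) (hcφ 0) (hcs 0)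
  have hcA' : ∀ j, Continuous (fun x => fderiv ℝ (A j) x (eb j)) := fun j =>
    ((hAc j).continuous_fderiv (by norm_num)).clm_apply continuous_const
  have hcE' : Continuous (fun x => fderiv ℝ E x (eb 0)) :=
    (hEc.continuous_fderiv (by norm_num)).clm_apply continuous_const
  have e1 : ∀ j, ∫ x, A j (R • x) * pd j φ x =
      - ∫ x, R * fderiv ℝ (A j) (R • x) (eb j) * φ x := fun j =>
    ibp_dil (T' := fun x => fderiv ℝ (A j) x (eb j)) (hAc j) (fun _ => rfl) hφ hc
  have e2 : ∫ x, E (R • x) * pd 0 φ x = - ∫ x, R * fderiv ℝ E (R • x) (eb 0) * φ x :=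
    ibp_dil (T' := fun x => fderiv ℝ E x (eb 0)) hEc (fun _ => rfl) hφ hc
  have e3 : ∫ ξ, (pd 0 u (R • ξ) * ∑ j, pd j u (R • ξ) * pd j φ ξ -
      (1 / 2 * ∑ j, pd j u (R • ξ) ^ 2 + F (u (R • ξ))) * pd 0 φ ξ) =
      (∑ j, ∫ x, A j (R • x) * pd j φ x) - ∫ x, E (R • x) * pd 0 φ x := by
    rw [← integral_finsetSum _ (fun j _ => hi j), ← integral_sub (integrable_finsetSum _
      (fun j _ => hi j)) hi0]
    refine integral_congr_ae (Eventually.of_forall fun x => ?_)
    beta_reduce
    rw [Finset.mul_sum]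
    congr 1
    refine Finset.sum_congr rfl fun j _ => ?_
    simp only [hA]
    ring
  have j1 : ∀ j, Integrable (fun x => R * fderiv ℝ (A j) (R • x) (eb j) * φ x) := fun j =>
    integrable_mul (continuous_const.mul ((hcA' j).comp hdil)) hφ.continuous hc
  have j2 : Integrable (fun x => R * fderiv ℝ E (R • x) (eb 0) * φ x) :=
    integrable_mul (continuous_const.mul (hcE'.comp hdil)) hφ.continuous hc
  rw [e3, e2, Finset.sum_congr rfl (fun j _ => e1 j), Finset.sum_neg_distrib,
    ← integral_finsetSum _ (fun j _ => j1 j), sub_neg_eq_add, neg_add_eq_sub,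
    ← integral_sub j2 (integrable_finsetSum _ (fun j _ => j1 j))]
  refine (integral_congr_ae (Eventually.of_forall fun x => ?_)).trans (integral_zero _ _)
  beta_reduce
  have := hdiv (R • x)
  rw [← Finset.sum_mul, ← Finset.mul_sum]
  linear_combination (-R * φ x) * this

end Pool.Agent.Helper13.BG
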